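import Mathlib
import Pool.Agent.MP_154433_an.t3s.All

/-! Full range for powers of one map: from an inverse theorem on cyclic groups with a family of
polynomial size to the main statement. -/

set_option autoImplicit false
set_option linter.unusedVariables false

open MeasureTheory ProbabilityTheory Filter Topology Function
open scoped BigOperators ComplexConjugate InnerProductSpace

noncomputable section

namespace Pool.Agent.MP_154433_an.T3F

open T3S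

def InvZ : Prop := ∀ (k : ℕ) (δ : ℝ), 0 < δ → ∃ c C : ℝ, 0 < c ∧ 0 ≤ C ∧
  ∀ (N : ℕ) [NeZero N], ∃ 𝓕 : Finset (ZMod N → ℂ), (∀ φ ∈ 𝓕, B1 φ) ∧
    (𝓕.card : ℝ) ≤ Real.exp (C * LG (ZMod N)) ∧
    ∀ f : ZMod N → ℂ, B1 f → δ ≤ Q k f → ∃ φ ∈ 𝓕, c ≤ ‖ip f φ‖

def CovZ : Prop := ∀ (k : ℕ) (A ε : ℝ), 0 < A → 0 < ε → ∃ C : ℝ, 0 ≤ C ∧
  ∀ (N : ℕ) [NeZero N], ∃ 𝓥 : Finset (ZMod N → ℂ), (∀ v ∈ 𝓥, B1 v) ∧
    (𝓥.card : ℝ) ≤ Real.exp (C * LG (ZMod N)) ∧
    ∀ u : ZMod N → ℂ, Dual k A u → ∃ v ∈ 𝓥, 𝔼 x, ‖u x - v x‖ ≤ ε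

def NetZ : Prop := ∀ (l : ℕ), 1 ≤ l → ∀ (J : ℕ) (r : Fin J → ℤ) (b : Fin J → Fin (l + 1) → ℤ),
  (∀ t i, b t i ≠ 0) → ∀ ε : ℝ, 0 < ε → ∃ (C : ℝ) (S : ℕ → Finset (ℕ → ℂ)),
    (∀ M, ∀ c ∈ S M, B1 c) ∧
    (∀ M, 1 ≤ M → ((S M).card : ℝ) ≤ Real.exp (C * (Real.log M + 1) ^ 1)) ∧
    ∀ᶠ M in atTop, ∀ (y : ℕ → ℝ) (τ : ℝ),
      (∀ c ∈ S M, ‖∑ d ∈ Finset.range M, (y d : ℂ) * c d‖ ≤ τ) →
      ∀ u : Fin J → ℤ → ℂ, (∀ t, u t ∈ CZ (b t) (M ^ 2)) →
        ∑ n ∈ Finset.range M, ‖∑ d ∈ Finset.range M, (y d : ℂ) * ∏ t, u t (n + r t * d)‖ ≤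
          (τ + ε * ∑ d ∈ Finset.range M, |y d|) * M

def AeZ : Prop := ∀ σ : ℕ → ℝ, (∀ n, 0 ≤ σ n ∧ σ n ≤ 1) →
  ∀ (Ω : Type) [MeasurableSpace Ω] (P : Measure Ω) [IsProbabilityMeasure P] (E : ℕ → Set Ω),
  (∀ n, MeasurableSet (E n)) → iIndepSet E P → (∀ n, P (E n) = ENNReal.ofReal (σ n)) → Gr σ 1 →
  ∀ᵐ ω ∂P, Mix (yw σ fun m => ω ∈ E m) ∧ ∀ l : ℕ, 1 ≤ l → Str l (yw σ fun m => ω ∈ E m)

def MainF : Prop := ∀ (σ : ℕ → ℝ), (∀ n, 0 ≤ σ n ∧ σ n ≤ 1) → Antitone σ → Gr σ 1 →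
  ∀ (Ω : Type) [MeasurableSpace Ω] (P : Measure Ω) [IsProbabilityMeasure P]
    (E : ℕ → Set Ω), (∀ n, MeasurableSet (E n)) → iIndepSet E P →
    (∀ n, P (E n) = ENNReal.ofReal (σ n)) →
  ∀ᵐ ω ∂P, ∀ (ℓ : ℕ) (k : Fin ℓ → ℤ)
    (X : Type) [MeasurableSpace X] (μ : Measure X) [IsProbabilityMeasure μ]
    (T : X ≃ᵐ X) (f : Fin ℓ → X → ℝ),
    MeasurePreserving (⇑T) μ μ → (∀ i, MemLp (f i) ⊤ μ) → Concl (fun m => ω ∈ E m) k μ T f

open Cov in
/-- nets for dual functions on one group, from a family of test functions -/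
theorem covG (k : ℕ) {A ε c : ℝ} (hA : 0 < A) (hε : 0 < ε) (hc : 0 < c) : ∃ n : ℕ,
    ∀ (G : Type) [AddCommGroup G] [Fintype G] (F : Finset (G → ℂ)), (∀ φ ∈ F, B1 φ) →
    (∀ f : G → ℂ, B1 f → (ε ^ 2 / 4) ^ 2 ^ (k + 1) / A ≤ Q k f → ∃ φ ∈ F, c ≤ ‖ip f φ‖) →
    ∃ 𝓥 : Finset (G → ℂ), (∀ v ∈ 𝓥, B1 v) ∧ 𝓥.card ≤ (4 * F.card + 2) ^ n ∧
      ∀ u : G → ℂ, Dual k A u → ∃ v ∈ 𝓥, 𝔼 x, ‖u x - v x‖ ≤ ε := by
  classical
  obtain ⟨c₀, h0, h1, h2⟩ : ∃ c₀ : ℝ, 0 < c₀ ∧ c₀ ≤ c ∧ c₀ ≤ ε ^ 2 / 2 :=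
    ⟨min c (ε ^ 2 / 2), by positivity, min_le_left _ _, min_le_right _ _⟩
  obtain ⟨n, hn⟩ := exists_nat_ge (1 / c₀ ^ 2)
  rw [div_le_iff₀ (by positivity)] at hn
  refine ⟨n, fun G _ _ F f1 f3 => ?_⟩
  choose cl c1 c2 using clip
  let P : Finset (G → ℂ) := (({1, -1, Complex.I, -Complex.I} : Finset ℂ) ×ˢ F).image
    fun p x => p.1 * p.2 x
  have p1 : P.card ≤ 4 * F.card := Finset.card_image_le.trans (by
    rw [Finset.card_product]
    exact Nat.mul_le_mul_right _ Finset.card_le_four)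
  have p2 : ∀ u v, Dual k A u → B1 v → ε ^ 2 < 𝔼 x, ‖u x - v x‖ ^ 2 →
      ∃ ψ ∈ insert (fun x => -v x) P, B1 ψ ∧ c₀ ≤ (ip (fun x => u x - v x) ψ).re := by
    intro u v hu hv he
    rw [en] at he
    by_cases q : ε ^ 2 / 2 ≤ (ip (fun x => u x - v x) fun x => -v x).re
    · exact ⟨_, Finset.mem_insert_self _ _, fun x => (norm_neg _).trans_le (hv x), h2.trans q⟩
    have n2 : ‖(2⁻¹ : ℂ)‖ = 2⁻¹ := by simp
    have g : B1 fun x => (2⁻¹ : ℂ) * (u x - v x) := fun x => by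
      rw [norm_mul, n2]
      linarith [norm_sub_le (u x) (v x), hu.1 x, hv x]
    have a := hu.2 _ g
    rw [ip_left, norm_mul, n2] at a
    obtain ⟨φ, hφ, b⟩ := f3 _ g ((div_le_iff₀' hA).2 ((pow_le_pow_left₀ (by positivity)
      (by linarith [Complex.re_le_norm (ip (fun x => u x - v x) u)]) _).trans a))
    rw [ip_left, norm_mul, n2] at b
    obtain ⟨θ, t1, t2⟩ := phase (ip (fun x => u x - v x) φ)
    refine ⟨fun x => θ * φ x, Finset.mem_insert_of_mem (Finset.mem_image.2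
      ⟨(θ, φ), Finset.mem_product.2 ⟨t1, hφ⟩, rfl⟩), B1.mul (fun _ => ?_) (f1 φ hφ), ?_⟩
    · simp only [Finset.mem_insert, Finset.mem_singleton] at t1
      rcases t1 with rfl | rfl | rfl | rfl <;> simp
    · rw [ip_right]
      linarith
  have key : ∀ s : ℕ, ∃ N : Finset (G → ℂ), (∀ v ∈ N, B1 v) ∧ N.card ≤ (4 * F.card + 2) ^ s ∧
      ∀ u, Dual k A u → ∃ v ∈ N, 𝔼 x, ‖u x - v x‖ ^ 2 ≤ ε ^ 2 ∨
        𝔼 x, ‖u x - v x‖ ^ 2 ≤ 1 - s * c₀ ^ 2 := by
    intro s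
    induction s with
    | zero =>
      refine ⟨{0}, fun v hv x => by simp [Finset.mem_singleton.1 hv], by simp, fun u hu =>
        ⟨0, Finset.mem_singleton_self _, Or.inr ?_⟩⟩
      rw [Nat.cast_zero, zero_mul, sub_zero]
      exact exp_le_of_le zero_le_one fun x _ => pow_le_one₀ (norm_nonneg _) (by simpa using hu.1 x)
    | succ s ih =>
      obtain ⟨N, n1, n2, n3⟩ := ih
      refine ⟨N ∪ N.biUnion fun v => (insert (fun x => -v x) P).image
        fun ψ x => cl (v x + c₀ * ψ x), fun v hv => ?_, ?_, fun u hu => ?_⟩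
      · rcases Finset.mem_union.1 hv with hv | hv
        · exact n1 v hv
        · obtain ⟨w, -, hw⟩ := Finset.mem_biUnion.1 hv
          obtain ⟨ψ, -, rfl⟩ := Finset.mem_image.1 hw
          exact fun x => c1 _
      · refine (Finset.card_union_le _ _).trans ((Nat.add_le_add_left
          (Finset.card_biUnion_le_card_mul _ _ (4 * F.card + 1) fun v _ =>
            Finset.card_image_le.trans ((Finset.card_insert_le _ _).trans (by omega))) _).trans ?_)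
        rw [pow_succ]
        nlinarith
      · obtain ⟨v, hv, a⟩ := n3 u hu
        rcases le_or_gt (𝔼 x, ‖u x - v x‖ ^ 2) (ε ^ 2) with b | b
        · exact ⟨v, Finset.mem_union_left _ hv, Or.inl b⟩
        obtain ⟨ψ, q1, q2, q3⟩ := p2 u v hu (n1 v hv) b
        refine ⟨_, Finset.mem_union_right _ (Finset.mem_biUnion.2 ⟨v, hv,
          Finset.mem_image_of_mem _ q1⟩), Or.inr ((drop h0.le q2 q3 fun x => c2 _ _ (hu.1 x)).trans ?_)⟩
        push_cast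
        linarith [a.resolve_left b.not_ge]
  obtain ⟨N, n1, n2, n3⟩ := key n
  refine ⟨N, n1, n2, fun u hu => ?_⟩
  · obtain ⟨v, hv, a⟩ := n3 u hu
    refine ⟨v, hv, le_of_mul_le_mul_left ?_ (show 0 < 2 * ε by positivity)⟩
    have b : 𝔼 x, 2 * ε * ‖u x - v x‖ ≤ 𝔼 x, (‖u x - v x‖ ^ 2 + ε ^ 2) :=
      Finset.expect_le_expect fun x _ => by nlinarith [sq_nonneg (‖u x - v x‖ - ε)]
    rw [← Finset.mul_expect, Finset.expect_add_distrib,
      Finset.expect_const Finset.univ_nonempty] at b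
    rcases a with a | a <;> nlinarith [sq_nonneg ε]

lemma card_exp {a b n : ℕ} {C L : ℝ} (hC : 0 ≤ C) (hL : 1 ≤ L) (ha : (a : ℝ) ≤ Real.exp (C * L))
    (hb : b ≤ (4 * a + 2) ^ n) : (b : ℝ) ≤ Real.exp (n * (C + 5) * L) := by
  have e1 := Real.one_le_exp (show 0 ≤ C * L by positivity)
  have e2 := Real.add_one_le_exp (5 * L)
  rw [mul_assoc, Real.exp_nat_mul, add_mul, Real.exp_add]
  exact le_trans (by exact_mod_cast hb) (pow_le_pow_left₀ (a := 4 * (a : ℝ) + 2)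
    (by positivity) (by nlinarith) n)

theorem covZ (h : InvZ) : CovZ := by
  intro k A ε hA hε
  obtain ⟨c, C, hc, hC, h⟩ := h k ((ε ^ 2 / 4) ^ 2 ^ (k + 1) / A) (by positivity)
  obtain ⟨n, hn⟩ := covG k hA hε hc
  refine ⟨n * (C + 5), by positivity, fun N _ => ?_⟩
  obtain ⟨F, f1, f2, f3⟩ := h N
  obtain ⟨V, v1, v2, v3⟩ := hn _ F f1 f3
  exact ⟨V, v1, card_exp hC one_le_LG f2 v2, v3⟩

theorem netZ (h1 : ApxS) (h2 : CovZ) : NetZ := by
  classical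
  intro l hl J r b hb ε hε
  obtain ⟨R, hR⟩ : ∃ R : ℕ, ∀ t, 1 + |r t| ≤ R := by
    refine ⟨1 + ∑ t, (r t).natAbs, fun t => ?_⟩
    have := Finset.single_le_sum (f := fun t => (r t).natAbs) (fun _ _ => Nat.zero_le _)
      (Finset.mem_univ t)
    rw [Int.abs_eq_natAbs]
    exact_mod_cast Nat.add_le_add_left this 1
  obtain ⟨C0, hC, hC0⟩ : ∃ C0 : ℕ, 1 ≤ C0 ∧ ∀ t i, 2 * ((R : ℤ) + |b t i|) ≤ C0 := by
    refine ⟨2 * (R + ∑ p : Fin J × Fin (l + 1), (b p.1 p.2).natAbs) + 1, by omega, fun t i => ?_⟩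
    have := Finset.single_le_sum (f := fun p : Fin J × Fin (l + 1) => (b p.1 p.2).natAbs)
      (fun _ _ => Nat.zero_le _) (Finset.mem_univ (t, i))
    rw [Int.abs_eq_natAbs]
    simp only at this
    omega
  have hCr : (0 : ℝ) < C0 := by exact_mod_cast hC
  obtain ⟨C1, hC1, hV⟩ := h2 l (((C0 : ℝ) ^ (l + 1)) ^ 2 ^ (l + 1)) (ε / (2 * (J + 1) * C0))
    (by positivity) (by positivity)
  have key : ∀ M : ℕ, ∃ S : Finset (ℕ → ℂ), (∀ c ∈ S, B1 c) ∧
      (1 ≤ M → (S.card : ℝ) ≤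
        Real.exp ((1 + J * C1 * (Real.log C0 + 1) ^ 1) * (Real.log M + 1) ^ 1)) ∧
      (1 ≤ M → 8 * (J + 1) * (l + 1) / ε ≤ (M : ℝ) → ∀ (y : ℕ → ℝ) (τ : ℝ),
        (∀ c ∈ S, ‖∑ d ∈ Finset.range M, (y d : ℂ) * c d‖ ≤ τ) →
        ∀ u : Fin J → ℤ → ℂ, (∀ t, u t ∈ CZ (b t) (M ^ 2)) →
          ∑ n ∈ Finset.range M, ‖∑ d ∈ Finset.range M, (y d : ℂ) * ∏ t, u t (n + r t * d)‖ ≤
            (τ + ε * ∑ d ∈ Finset.range M, |y d|) * M) := by
    intro M
    rcases Nat.eq_zero_or_pos M with rfl | hM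
    · exact ⟨∅, by simp, fun h => absurd h (by omega), fun h => absurd h (by omega)⟩
    have : NeZero (C0 * M) := ⟨(Nat.mul_pos hC hM).ne'⟩
    obtain ⟨V, hV1, hV2, hV3⟩ := hV (C0 * M)
    have hMr : (0 : ℝ) < M := by exact_mod_cast hM
    refine ⟨((Finset.range M) ×ˢ Fintype.piFinset fun _ : Fin J => V).image
      fun p d => ∏ t, p.2 t (((p.1 : ℤ) + r t * d : ℤ) : ZMod (C0 * M)), fun c hc => ?_,
      fun _ => ?_, fun _ hM1 y τ hτ u hu => ?_⟩
    · obtain ⟨p, hp, rfl⟩ := Finset.mem_image.1 hc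
      exact fun d => norm_prod_le_one _ fun t _ =>
        hV1 _ (Fintype.mem_piFinset.1 (Finset.mem_product.1 hp).2 t) _
    · rw [LG, ZMod.card, ← pow_one (Real.log _ + 1)] at hV2
      refine le_trans ?_ (Net.card_le (J := J) hM hC le_rfl hC1 hV2)
      have := Finset.card_image_le (s := (Finset.range M) ×ˢ Fintype.piFinset fun _ : Fin J => V)
        (f := fun p (d : ℕ) => ∏ t, p.2 t (((p.1 : ℤ) + r t * d : ℤ) : ZMod (C0 * M)))
      rw [Finset.card_product, Finset.card_range, Fintype.card_piFinset_const] at this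
      exact_mod_cast this
    · choose w hw1 hw2 using fun t => h1 l hl (b t) R C0 M (M ^ 2) (hb t) (hC0 t)
        (Nat.one_le_pow _ _ hM) (u t) (hu t)
      choose v hv1 hv2 using fun t => hV3 (w t) (hw1 t)
      have hδ : (4 * (l + 1) * M / (M ^ 2 : ℕ) : ℝ) ≤ ε / (2 * (J + 1)) := by
        rw [div_le_iff₀ hε] at hM1
        push_cast
        rw [div_le_div_iff₀ (by positivity) (by positivity)]
        nlinarith
      have step : ∀ n ∈ Finset.range M,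
          ‖∑ d ∈ Finset.range M, (y d : ℂ) * ∏ t, u t (n + r t * d)‖ ≤
          τ + ∑ d ∈ Finset.range M, |y d| * ∑ t, (ε / (2 * (J + 1)) +
            ‖w t (((n : ℤ) + r t * d : ℤ) : ZMod (C0 * M)) -
              v t (((n : ℤ) + r t * d : ℤ) : ZMod (C0 * M))‖) := by
        intro n hn
        have e0 := hτ _ (Finset.mem_image_of_mem _ (Finset.mem_product.2
          (⟨hn, Fintype.mem_piFinset.2 hv1⟩ : (n, v).1 ∈ _ ∧ (n, v).2 ∈ _)))
        have e1 : ∑ d ∈ Finset.range M, (y d : ℂ) * ∏ t, u t (n + r t * d) =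
            ∑ d ∈ Finset.range M, (y d : ℂ) * ∏ t, v t (((n : ℤ) + r t * d : ℤ) : ZMod (C0 * M)) +
            ∑ d ∈ Finset.range M, (y d : ℂ) * (∏ t, u t (n + r t * d) -
              ∏ t, v t (((n : ℤ) + r t * d : ℤ) : ZMod (C0 * M))) := by
          rw [← Finset.sum_add_distrib]
          exact Finset.sum_congr rfl fun d _ => by ring
        rw [e1]
        refine (norm_add_le _ _).trans (add_le_add e0 ((norm_sum_le _ _).trans
          (Finset.sum_le_sum fun d hd => ?_)))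
        rw [norm_mul, Complex.norm_real, Real.norm_eq_abs]
        refine mul_le_mul_of_nonneg_left ((norm_prod_sub_le _ (fun t => CZ_B1 (hu t) _)
          fun t => hV1 _ (hv1 t) _).trans (Finset.sum_le_sum fun t _ => ?_)) (abs_nonneg _)
        have e2 : |(n : ℤ) + r t * d| ≤ R * M := by
          have a1 : (n : ℤ) ≤ M := by exact_mod_cast (Finset.mem_range.1 hn).le
          have a2 : (d : ℤ) ≤ M := by exact_mod_cast (Finset.mem_range.1 hd).le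
          refine (abs_add_le _ _).trans ?_
          rw [abs_mul, Nat.abs_cast, Nat.abs_cast]
          have a3 := mul_le_mul_of_nonneg_left a2 (abs_nonneg (r t))
          have a4 := mul_le_mul_of_nonneg_right (hR t) (Int.natCast_nonneg M)
          linarith
        exact (norm_sub_le_norm_sub_add_norm_sub _ _ _).trans
          (add_le_add ((hw2 t _ e2).trans hδ) le_rfl)
      refine (Finset.sum_le_sum step).trans ?_
      rw [Finset.sum_add_distrib, Finset.sum_const, Finset.card_range, nsmul_eq_mul,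
        Finset.sum_comm, add_mul, mul_comm τ, Finset.mul_sum, Finset.sum_mul]
      refine add_le_add le_rfl (Finset.sum_le_sum fun d _ => ?_)
      rw [← Finset.mul_sum, Finset.sum_comm, mul_comm ε, mul_assoc]
      refine mul_le_mul_of_nonneg_left ?_ (abs_nonneg _)
      have e3 : ∀ t ∈ (Finset.univ : Finset (Fin J)), ∑ n ∈ Finset.range M, (ε / (2 * (J + 1)) +
          ‖w t (((n : ℤ) + r t * d : ℤ) : ZMod (C0 * M)) -
            v t (((n : ℤ) + r t * d : ℤ) : ZMod (C0 * M))‖) ≤ ε / (J + 1) * M := fun t _ => by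
        rw [Finset.sum_add_distrib, Finset.sum_const, Finset.card_range, nsmul_eq_mul]
        have a1 := Net.sum_le (N := C0 * M) (M := M) (Nat.le_mul_of_pos_left M hC) (r t * d)
          (F := fun x => ‖w t x - v t x‖) fun x => norm_nonneg _
        have a2 := mul_le_mul_of_nonneg_left (hv2 t) (Nat.cast_nonneg (α := ℝ) (C0 * M))
        have a3 : ((C0 * M : ℕ) : ℝ) * (ε / (2 * (J + 1) * C0)) = M * (ε / (2 * (J + 1))) := by
          push_cast
          field_simp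
        have a4 : ε / (J + 1) * M = M * (ε / (2 * (J + 1))) + M * (ε / (2 * (J + 1))) := by
          field_simp
          ring
        rw [a4]
        exact add_le_add le_rfl (a1.trans (a2.trans a3.le))
      refine (Finset.sum_le_sum e3).trans ?_
      rw [Finset.sum_const, Finset.card_univ, Fintype.card_fin, nsmul_eq_mul, ← mul_assoc]
      refine mul_le_mul_of_nonneg_right ?_ hMr.le
      rw [← mul_div_assoc, div_le_iff₀ (by positivity)]
      nlinarith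
  choose S hS1 hS2 hS3 using key
  refine ⟨_, S, hS1, hS2, ?_⟩
  filter_upwards [eventually_ge_atTop 1,
    (tendsto_natCast_atTop_atTop (R := ℝ)).eventually_ge_atTop (8 * (J + 1) * (l + 1) / ε)]
    with M a1 a2
  exact hS3 M a1 a2

open Ae in
theorem aeZ (h1 : NetZ) (h2 : UbS) (h3 : NormS) : AeZ := by
  intro σ hσ Ω _ P _ E hE hind hP hg
  have h0 : ∀ n, 0 ≤ σ n := fun n => (hσ n).1
  have hW := Asm.wt_tendsto h0 hg
  have hmix : ∀ᵐ ω ∂P, Mix (yw σ fun m => ω ∈ E m) := by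
    have := ae_all_iff.2 fun j : ℕ => h2 σ hσ Ω P E hE hind hP 1 le_rfl hg 1 chars chars_B1
      chars_card (1 / ((j : ℝ) + 1)) (by positivity)
    filter_upwards [this] with ω hω ε hε
    obtain ⟨j, hj⟩ := exists_nat_one_div_lt hε
    filter_upwards [hω j, eventually_ge_atTop 1] with M hM hM1 χ
    exact (hM _ (chars_mem M hM1 χ)).trans hj.le
  have hstr : ∀ᵐ ω ∂P, ∀ (l J : ℕ) (r : Fin J → ℤ) (b : Fin J → Fin (l + 1) → ℤ) (j : ℕ),
      1 ≤ l → (∀ t i, b t i ≠ 0) → Bd (yw σ fun m => ω ∈ E m) → ∀ᶠ M in atTop,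
      ∀ u : Fin J → ℤ → ℂ, (∀ t, u t ∈ CZ (b t) (M ^ 2)) →
        ∑ n ∈ Finset.range M, ‖∑ d ∈ Finset.range M, (yw σ (fun m => ω ∈ E m) M d : ℂ) *
          ∏ t, u t (n + r t * d)‖ ≤ 4 * (1 / ((j : ℝ) + 1)) * M := by
    simp only [ae_all_iff]
    intro l J r b j hl hb
    obtain ⟨C, S, s1, s2, s3⟩ := h1 l hl J r b hb (1 / ((j : ℝ) + 1)) (by positivity)
    have := h2 σ hσ Ω P E hE hind hP 1 le_rfl hg C S s1 s2 (1 / ((j : ℝ) + 1)) (by positivity)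
    filter_upwards [this] with ω hω hbd
    filter_upwards [hω, s3, hbd] with M m1 m2 m3 u hu
    refine (m2 _ _ m1 u hu).trans (mul_le_mul_of_nonneg_right ?_ (Nat.cast_nonneg M))
    have := mul_le_mul_of_nonneg_left m3 (by positivity : (0 : ℝ) ≤ 1 / ((j : ℝ) + 1))
    linarith
  filter_upwards [hmix, hstr] with ω m1 m2
  refine ⟨m1, fun l hl J r b hb ε hε => ?_⟩
  obtain ⟨j, hj⟩ := exists_nat_one_div_lt (by positivity : 0 < ε / 4)
  filter_upwards [m2 l J r b j hl hb (h3.1 σ _ h0 hW m1).2.2.1] with M hM u hu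
  exact (hM u hu).trans (mul_le_mul_of_nonneg_right (by linarith) (Nat.cast_nonneg M))

theorem mainFOf (h4 : AeZ) (hD : DetS) : MainF := by
  intro σ hσ ha hg Ω _ P _ E hE hind hP
  have h0 : ∀ n, 0 ≤ σ n := fun n => (hσ n).1
  have hW := Asm.wt_tendsto h0 hg
  have h6 := erg vn
  filter_upwards [h4 σ hσ Ω P E hE hind hP hg] with ω hω ℓ k X _ μ _ T f hT hf
  obtain ⟨a1, a2, a3, a4, a5⟩ := nrm.1 σ _ h0 hW hω.1
  have hi := nrm.2.2.2 σ h0 ha hW
  have e2 : Erg (nb σ) := h6.1 _ a2 hi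
  have e1 : Erg (nu fun m => ω ∈ E m) := h6.2 _ _ e2 (nrm.2.1 _ _ a4 hω.1)
  refine endr σ _ h0 ha hW a5 ℓ k X μ T hT (red _ _ a4 a5 X μ T hT ℓ ?_ k) f hf
  intro l hl1 hl r hr hr0
  exact hD _ _ a1 a2 e1 e2 l r hr hr0
    (hasB0 fac (good prodr) (unif fac (zero nest link) (gvn vdc)) a1 a2 hi
      (nrm.2.2.1 l _ _ a4 (hω.2 l hl1)) r hr hr0) X μ T hT

/-- the full range for powers of one map -/
theorem mainFull (hI : InvZ) (h : T3x.DET) : MainF :=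
  mainFOf (aeZ (netZ (apx shift (T3S.dual gcs win)) (covZ hI)) ub nrm) (detOf h)

end Pool.Agent.MP_154433_an.T3F

end
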